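import Pool.Agent.H664.FH.Stm2
import Pool.Graph.R_seed8.W578.ECPt

set_option autoImplicit false

namespace Pool.Agent.H390.FH

open MvPolynomial Filter Topology Metric Pool.Agent.W996.EC Pool.Agent.Q72.EG
open Pool.Agent.H664.FH

/-! ### fractions -/

theorem key {σ τ : Type} (s : MvPolynomial σ ℂ) (a : τ → MvPolynomial σ ℂ) (κ : τ → ℕ)
    (g : MvPolynomial τ ℂ) : ∃ (A : MvPolynomial σ ℂ) (k : ℕ), ∀ (F : Type) [Field F] [Algebra ℂ F]
      (ξ : σ → F) (θ : τ → F), (∀ i, θ i * aeval ξ s ^ κ i = aeval ξ (a i)) →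
      aeval θ g * aeval ξ s ^ k = aeval ξ A := by
  induction g using MvPolynomial.induction_on with
  | C c => exact ⟨C c, 0, fun F _ _ ξ θ _ => by simp⟩
  | add g1 g2 ih1 ih2 =>
    obtain ⟨a1, k1, e1⟩ := ih1
    obtain ⟨a2, k2, e2⟩ := ih2
    refine ⟨a1 * s ^ k2 + a2 * s ^ k1, k1 + k2, fun F _ _ ξ θ h => ?_⟩
    rw [map_add, map_add, map_mul, map_mul, map_pow, map_pow, ← e1 F ξ θ h, ← e2 F ξ θ h]; ring
  | mul_X g i ih =>
    obtain ⟨a1, k1, e1⟩ := ih
    refine ⟨a1 * a i, k1 + κ i, fun F _ _ ξ θ h => ?_⟩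
    rw [map_mul, map_mul, aeval_X, ← e1 F ξ θ h, ← h i]; ring

/-! ### `subM` -/

variable {n : ℕ}

theorem aeval_subM {E : Type} [CommRing E] [Algebra ℂ E] (M : Matrix (Fin n) (Fin n) ℤ)
    (P : MvPolynomial (Fin n) ℂ) (x : Fin n → E) :
    aeval x (subM M P) = aeval (fun i => ∑ j, ((M i j : ℤ) : E) * x j) P := by
  unfold subM
  rw [aeval_bind₁]
  congr 1
  congr 1
  funext i
  simp

theorem eval_subM (M : Matrix (Fin n) (Fin n) ℤ) (P : MvPolynomial (Fin n) ℂ) (x : Fin n → ℂ) :
    eval x (subM M P) = eval (fun i => ∑ j, ((M i j : ℤ) : ℂ) * x j) P := by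
  have := aeval_subM M P x
  simpa only [MvPolynomial.coe_aeval_eq_eval, MvPolynomial.aeval_eq_eval] using this

theorem mul_sum_cast {E : Type} [CommRing E] (M N : Matrix (Fin n) (Fin n) ℤ) (h : M * N = 1)
    (x : Fin n → E) (i : Fin n) :
    ∑ j, ((M i j : ℤ) : E) * ∑ l, ((N j l : ℤ) : E) * x l = x i := by
  have h1 : ∀ l, ∑ j, ((M i j : ℤ) : E) * ((N j l : ℤ) : E) = if i = l then 1 else 0 := by
    intro l
    have := congrFun (congrFun h i) l
    rw [Matrix.mul_apply, Matrix.one_apply] at this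
    have h2 := congrArg (Int.cast : ℤ → E) this
    push_cast at h2
    simpa using h2
  simp_rw [Finset.mul_sum]
  rw [Finset.sum_comm]
  have h3 : ∀ l, ∑ j, ((M i j : ℤ) : E) * (((N j l : ℤ) : E) * x l) =
      (if i = l then 1 else 0) * x l := by
    intro l
    rw [← h1 l, Finset.sum_mul]
    exact Finset.sum_congr rfl fun j _ => by ring
  simp_rw [h3]
  simp

theorem subM_subM (M N : Matrix (Fin n) (Fin n) ℤ) (h : M * N = 1)
    (P : MvPolynomial (Fin n) ℂ) : subM N (subM M P) = P := by
  apply MvPolynomial.funext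
  intro x
  rw [eval_subM, eval_subM]
  congr 1
  congr 1
  funext i
  exact mul_sum_cast M N h x i

/-- `subM` as an automorphism -/
noncomputable def subE (M N : Matrix (Fin n) (Fin n) ℤ) (h : M * N = 1) (h' : N * M = 1) :
    MvPolynomial (Fin n) ℂ ≃* MvPolynomial (Fin n) ℂ where
  toFun := subM M
  invFun := subM N
  left_inv := subM_subM M N h
  right_inv := subM_subM N M h'
  map_mul' P Q := by unfold subM; exact map_mul _ _ _

theorem subM_irr {M N : Matrix (Fin n) (Fin n) ℤ} (h : M * N = 1) (h' : N * M = 1)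
    {P : MvPolynomial (Fin n) ℂ} (hP : Irreducible P) : Irreducible (subM M P) :=
  (MulEquiv.irreducible_iff (subE M N h h')).mpr hP

theorem subM_dvd {M N : Matrix (Fin n) (Fin n) ℤ} (h : M * N = 1) (h' : N * M = 1)
    {P Q : MvPolynomial (Fin n) ℂ} : subM M P ∣ subM M Q ↔ P ∣ Q :=
  map_dvd_iff (subE M N h h')

/-! ### fields -/

/-- `Tr1` depends only on the field -/
def TrK {E : Type} [Field E] [Algebra ℂ E] (K : IntermediateField ℂ E) : Prop :=
  ∀ f g : E, Transcendental K f →
    IsAlgebraic (IntermediateField.adjoin ℂ (insert f (K : Set E))) g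

theorem tr1_iff {E : Type} [Field E] [Algebra ℂ E] (x : Fin n → E) :
    Tr1 x ↔ TrK (IntermediateField.adjoin ℂ (Set.range x)) := by
  unfold Tr1 TrK
  refine forall_congr' fun f => forall_congr' fun g => imp_congr_right fun _ => ?_
  rw [IntermediateField.adjoin_insert_adjoin]

theorem adjoin_le {E : Type} [Field E] [Algebra ℂ E] (M : Matrix (Fin n) (Fin n) ℤ)
    (x : Fin n → E) :
    IntermediateField.adjoin ℂ (Set.range (fun i => ∑ j, ((M i j : ℤ) : E) * x j)) ≤
      IntermediateField.adjoin ℂ (Set.range x) := by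
  rw [IntermediateField.adjoin_le_iff]
  rintro _ ⟨i, rfl⟩
  refine sum_mem fun j _ => mul_mem (intCast_mem _ _) ?_
  exact IntermediateField.subset_adjoin _ _ ⟨j, rfl⟩

theorem adjoin_eq {E : Type} [Field E] [Algebra ℂ E] {M N : Matrix (Fin n) (Fin n) ℤ}
    (h' : N * M = 1) (x : Fin n → E) :
    IntermediateField.adjoin ℂ (Set.range (fun i => ∑ j, ((M i j : ℤ) : E) * x j)) =
      IntermediateField.adjoin ℂ (Set.range x) := by
  apply le_antisymm (adjoin_le M x)
  have := adjoin_le N (fun i => ∑ j, ((M i j : ℤ) : E) * x j)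
  have e : (fun i => ∑ j, ((N i j : ℤ) : E) * (fun i => ∑ j, ((M i j : ℤ) : E) * x j) j) = x := by
    funext i
    exact mul_sum_cast N M h' x i
  rwa [e] at this

/-! ### monomials -/

theorem prod_zpow_mul {F : Type} [Field F] (M N : Matrix (Fin n) (Fin n) ℤ) (h : M * N = 1)
    (y : Fin n → F) (hy : ∀ i, y i ≠ 0) (i : Fin n) :
    ∏ j, (∏ l, y l ^ N j l) ^ M i j = y i := by
  have h1 : ∀ l, ∑ j, M i j * N j l = if i = l then 1 else 0 := by
    intro l
    have := congrFun (congrFun h i) l
    rw [Matrix.mul_apply, Matrix.one_apply] at this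
    exact this
  have h2 : ∀ j, (∏ l, y l ^ N j l) ^ M i j = ∏ l, y l ^ (M i j * N j l) := by
    intro j
    rw [← Finset.prod_zpow]
    refine Finset.prod_congr rfl fun l _ => ?_
    rw [← zpow_mul, mul_comm]
  simp_rw [h2]
  rw [Finset.prod_comm]
  have h3 : ∀ l, ∏ j, y l ^ (M i j * N j l) = if i = l then y l else 1 := by
    intro l
    have : ∏ j, y l ^ (M i j * N j l) = y l ^ (∑ j, M i j * N j l) := by
      induction (Finset.univ : Finset (Fin n)) using Finset.induction_on with
      | empty => simp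
      | insert a s ha ih => rw [Finset.prod_insert ha, Finset.sum_insert ha, ih, zpow_add₀ (hy l)]
    rw [this, h1]
    split_ifs <;> simp
  simp_rw [h3]
  simp

theorem prod_shift {F : Type} [Field F] (m : Fin n → ℤ) (K : ℕ) (hK : ∀ i, 0 ≤ m i + K)
    (y : Fin n → F) (hy : ∀ i, y i ≠ 0) :
    (∏ i, y i ^ m i) * (∏ i, y i) ^ K = ∏ i, y i ^ (m i + K).toNat := by
  rw [← Finset.prod_pow, ← Finset.prod_mul_distrib]
  refine Finset.prod_congr rfl fun i _ => ?_
  rw [← zpow_natCast (y i) K, ← zpow_add₀ (hy i), ← zpow_natCast (y i) (m i + K).toNat,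
    Int.toNat_of_nonneg (hK i)]

theorem exists_K (M : Matrix (Fin n) (Fin n) ℤ) : ∃ K : ℕ, ∀ i j, 0 ≤ M i j + (K : ℤ) := by
  refine ⟨∑ i, ∑ j, (M i j).natAbs, fun i j => ?_⟩
  have h1 : (M i j).natAbs ≤ ∑ i, ∑ j, (M i j).natAbs := by
    refine (Finset.single_le_sum (f := fun j => (M i j).natAbs) (fun _ _ => Nat.zero_le _)
      (Finset.mem_univ j)).trans ?_
    exact Finset.single_le_sum (f := fun i => ∑ j, (M i j).natAbs) (fun _ _ => Nat.zero_le _)
      (Finset.mem_univ i)
  omega

/-! ### the main statement -/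

theorem coord : Pool.Agent.H664.FH.S_coord := by
  intro n M M' hMM hMM'
  refine ⟨?_, ?_⟩
  · intro E _ _ G
    have hadj := adjoin_eq (E := E) hMM' G.x
    let G' : Cv n E :=
      { P := subM M' G.P
        hP := subM_irr hMM' hMM G.hP
        x := fun i => ∑ j, ((M i j : ℤ) : E) * G.x j
        y := fun i => ∏ j, G.y j ^ M i j
        hx := by
          intro g
          rw [← aeval_subM, G.hx, ← subM_dvd hMM' hMM, subM_subM M M' hMM]
        hy := by
          intro l
          exact Finset.prod_ne_zero_iff.2 fun j _ => zpow_ne_zero _ (G.hy j)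
        tr1 := by
          rw [tr1_iff, hadj, ← tr1_iff]
          exact G.tr1 }
    refine ⟨G', rfl, fun i => rfl, fun i => rfl, fun i => ?_, ?_⟩
    · unfold Cv.T
      change Transcendental (IntermediateField.adjoin ℂ
        (Set.range (fun i => ∑ j, ((M i j : ℤ) : E) * G.x j))) _ ↔ _
      rw [hadj]
    · intro H hH
      obtain ⟨K, hK⟩ := exists_K M'
      let s : MvPolynomial (Fin n ⊕ Fin n) ℂ := ∏ i, X (Sum.inr i)
      let a : Fin n ⊕ Fin n → MvPolynomial (Fin n ⊕ Fin n) ℂ :=
        Sum.elim (fun j => ∑ i, C ((M' j i : ℤ) : ℂ) * X (Sum.inl i))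
          (fun j => ∏ i, X (Sum.inr i) ^ (M' j i + K).toNat)
      let κ : Fin n ⊕ Fin n → ℕ := Sum.elim (fun _ => 0) (fun _ => K)
      -- the relations
      have hrel : ∀ (F : Type) [Field F] [Algebra ℂ F] (x x' y y' : Fin n → F),
          (∀ i, y' i ≠ 0) → (∀ j, x j = ∑ i, ((M' j i : ℤ) : F) * x' i) →
          (∀ j, y j = ∏ i, y' i ^ M' j i) →
          ∀ i, (Sum.elim x y : Fin n ⊕ Fin n → F) i * aeval (Sum.elim x' y') s ^ κ i =
            aeval (Sum.elim x' y') (a i) := by
        intro F _ _ x x' y y' hy' hx hy i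
        rcases i with j | j
        · simp only [Sum.elim_inl, κ, a, pow_zero, mul_one, map_sum, map_mul, aeval_X]
          rw [hx]
          refine Finset.sum_congr rfl fun i _ => ?_
          simp
        · simp only [Sum.elim_inr, κ, a, s, map_prod, map_pow, aeval_X]
          rw [hy, prod_shift _ K (fun i => hK j i) y' hy']
      have hE := hrel E G.x G'.x G.y G'.y G'.hy
        (fun j => (mul_sum_cast M' M hMM' G.x j).symm)
        (fun j => (prod_zpow_mul M' M hMM' G.y G.hy j).symm)
      have hs0 : aeval (Sum.elim G'.x G'.y) s ≠ 0 := by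
        simp only [s, map_prod, aeval_X, Sum.elim_inr]
        exact Finset.prod_ne_zero_iff.2 fun i _ => G'.hy i
      obtain ⟨A, k, hA⟩ := key s a κ H
      refine ⟨A, ?_, ?_⟩
      · rw [← hA E _ _ hE]
        exact mul_ne_zero hH (pow_ne_zero _ hs0)
      · intro z hz hzA
        let z' : Fin n → ℂ := fun j => ∑ i, ((M' j i : ℤ) : ℂ) * z i
        have hexp : ∀ j, Complex.exp (z' j) = ∏ i, Complex.exp (z i) ^ M' j i := by
          intro j
          simp only [z', Complex.exp_sum]
          refine Finset.prod_congr rfl fun i _ => ?_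
          rw [Complex.exp_int_mul]
        have hC := hrel ℂ z' z (fun l => Complex.exp (z' l)) (fun l => Complex.exp (z l))
          (fun i => Complex.exp_ne_zero _) (fun j => rfl) hexp
        have hs1 : aeval (Sum.elim z (fun l => Complex.exp (z l))) s ≠ 0 := by
          simp only [s, map_prod, aeval_X, Sum.elim_inr]
          exact Finset.prod_ne_zero_iff.2 fun i _ => Complex.exp_ne_zero _
        have hev : ∀ (p : Fin n ⊕ Fin n → ℂ) (g : MvPolynomial (Fin n ⊕ Fin n) ℂ),
            aeval p g = eval p g := by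
          intro p g
          rw [← MvPolynomial.coe_aeval_eq_eval]
          rfl
        refine ⟨z', ?_, ?_⟩
        · intro g hg
          obtain ⟨B, k', hB⟩ := key s a κ g
          have h1 := hB E _ _ hE
          rw [hg, zero_mul] at h1
          have h2 := hz B h1.symm
          have h3 := hB ℂ _ _ hC
          rw [hev _ B, h2] at h3
          rw [← hev]
          exact (mul_eq_zero.1 h3).resolve_right (pow_ne_zero _ hs1)
        · have h3 := hA ℂ _ _ hC
          rw [hev _ A] at h3
          rw [← hev]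
          intro h4
          rw [h4, zero_mul] at h3
          exact hzA h3.symm
  · intro P l f ⟨h0, k, c, hk⟩
    have hev : ∀ (l : Fin n → ℝ) (g : Polynomial ℂ) (x : Fin n → ℂ),
        eval x (Polynomial.aeval (lin l) g) = g.eval (∑ i, (l i : ℂ) * x i) := by
      intro l g x
      rw [← eval_lin]
      rw [← MvPolynomial.coe_aeval_eq_eval]
      simp only [RingHom.coe_coe]
      rw [← Polynomial.aeval_algHom_apply]
      simp
    have hq : ∀ x : Fin n → ℂ,
        eval x (Polynomial.aeval (lin (fun i => ∑ j, ((M' j i : ℤ) : ℝ) * l j)) f) =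
        eval (fun i => ∑ j, ((M' i j : ℤ) : ℂ) * x j) (Polynomial.aeval (lin l) f) := by
      intro x
      rw [hev, hev]
      congr 1
      push_cast
      simp_rw [Finset.sum_mul, Finset.mul_sum]
      rw [Finset.sum_comm]
      refine Finset.sum_congr rfl fun i _ => Finset.sum_congr rfl fun j _ => ?_
      ring
    refine ⟨?_, fun j i => ∑ m, ((M i m : ℤ) : ℝ) * k j m, c, ?_⟩
    · intro hz
      apply h0
      apply MvPolynomial.funext
      intro x
      have h1 := hq (fun i => ∑ j, ((M i j : ℤ) : ℂ) * x j)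
      rw [hz, map_zero] at h1
      rw [map_zero, h1]
      congr 1
      congr 1
      funext i
      exact (mul_sum_cast M' M hMM' x i).symm
    · apply W578.ECPt.t_pt n (subM M' P).totalDegree
      · intro j
        refine (totalDegree_mul _ _).trans ?_
        rw [totalDegree_C, zero_add]
        exact totalDegree_tr_le _ _ _
      · intro x
        have h1 := W578.ECPt.conv_eval n _ _ hk
          (fun _ i => ∑ j, ((M' i j : ℤ) : ℂ) * x j) (fun i => ∑ j, ((M' i j : ℤ) : ℂ) * x j)
          tendsto_const_nhds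
        rw [hq]
        refine h1.congr fun j => ?_
        rw [map_mul, map_mul, eval_tr, eval_tr, eval_subM, eval_C, eval_C]
        congr 2
        congr 1
        funext i
        have h2 : ((k j i : ℝ) : ℂ) = ∑ m, ((M' i m : ℤ) : ℂ) *
            ∑ m', ((M m m' : ℤ) : ℂ) * ((k j m' : ℝ) : ℂ) :=
          (mul_sum_cast M' M hMM' (fun m => ((k j m : ℝ) : ℂ)) i).symm
        rw [h2]
        push_cast
        simp only [one_mul, mul_add, Finset.sum_add_distrib, Finset.mul_sum]
        congr 1
        refine Finset.sum_congr rfl fun m _ => Finset.sum_congr rfl fun m' _ => ?_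
        ring

end Pool.Agent.H390.FH
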