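import Pool.Agent.H664.FH.Stm2

set_option autoImplicit false

namespace Pool.Agent.H390.FH

open Pool.Agent.H664.FH

theorem latt : Pool.Agent.H664.FH.S_latt := by
  intro n l hl
  classical
  -- the relation map
  let φ : (Fin n → ℤ) →ₗ[ℤ] ℝ :=
    { toFun := fun q => ∑ j, (q j : ℝ) * l j
      map_add' := by
        intro a b
        simp only [Pi.add_apply, Int.cast_add, add_mul, Finset.sum_add_distrib]
      map_smul' := by
        intro c a
        simp only [Pi.smul_apply, smul_eq_mul, Int.cast_mul, RingHom.id_apply, zsmul_eq_mul,
          Finset.mul_sum, mul_assoc] }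
  have hφ : ∀ q, φ q = ∑ j, (q j : ℝ) * l j := fun q => rfl
  let f := φ.rangeRestrict
  have hfsurj : Function.Surjective f := LinearMap.surjective_rangeRestrict φ
  have : Module.Finite ℤ (LinearMap.range φ) := Module.Finite.range φ
  have : Module.Free ℤ (LinearMap.range φ) := inferInstance
  have : Module.Free ℤ (LinearMap.ker φ) := inferInstance
  have : Module.Finite ℤ (LinearMap.ker φ) := inferInstance
  obtain ⟨h, hh⟩ := Module.projective_lifting_property f (LinearMap.id) hfsurj
  have hh' : ∀ y, f (h y) = y := fun y => by
    have := LinearMap.congr_fun hh y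
    simpa using this
  have hfφ : ∀ x, ((f x : LinearMap.range φ) : ℝ) = φ x := fun x => rfl
  let e : (LinearMap.ker φ × LinearMap.range φ) ≃ₗ[ℤ] (Fin n → ℤ) :=
    { toFun := fun p => (p.1 : Fin n → ℤ) + h p.2
      map_add' := by
        intro a b
        simp only [Prod.fst_add, Submodule.coe_add, Prod.snd_add, map_add]
        abel
      map_smul' := by
        intro c a
        simp only [Prod.smul_fst, Prod.smul_snd, map_smul, Submodule.coe_smul, RingHom.id_apply,
          smul_add]
      invFun := fun x => (⟨x - h (f x), by
        rw [LinearMap.mem_ker, map_sub]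
        have := congrArg (Subtype.val) (hh' (f x))
        rw [hfφ, hfφ] at this
        rw [this, sub_self]⟩, f x)
      left_inv := by
        intro p
        have h1 : f ((p.1 : Fin n → ℤ) + h p.2) = p.2 := by
          rw [map_add, hh']
          have : f (p.1 : Fin n → ℤ) = 0 := by
            apply Subtype.ext
            rw [hfφ]
            simp
          rw [this, zero_add]
        ext1
        · apply Subtype.ext
          simp only [h1]
          abel
        · exact h1
      right_inv := by
        intro x
        simp only
        abel }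
  let b1 := Module.Free.chooseBasis ℤ (LinearMap.ker φ)
  let b2 := Module.Free.chooseBasis ℤ (LinearMap.range φ)
  let b := (b1.prod b2).map e
  have hcard : Fintype.card (Module.Free.ChooseBasisIndex ℤ (LinearMap.ker φ) ⊕
      Module.Free.ChooseBasisIndex ℤ (LinearMap.range φ)) = n := by
    rw [← Module.finrank_eq_card_basis b]
    simp
  let σ := Fintype.equivFinOfCardEq hcard
  let b' := b.reindex σ
  have hbl : ∀ i, φ (b (Sum.inl i)) = 0 := by
    intro i
    have : b (Sum.inl i) = (b1 i : Fin n → ℤ) := by
      simp only [b, Module.Basis.map_apply, Module.Basis.prod_apply]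
      change ((b1 i : LinearMap.ker φ) : Fin n → ℤ) + h 0 = _
      simp
    rw [this]
    exact LinearMap.mem_ker.1 (b1 i).2
  have hbr : ∀ i, φ (b (Sum.inr i)) = (b2 i : ℝ) := by
    intro i
    have : b (Sum.inr i) = h (b2 i) := by
      simp only [b, Module.Basis.map_apply, Module.Basis.prod_apply]
      change (((0 : LinearMap.ker φ)) : Fin n → ℤ) + h (b2 i) = _
      simp
    rw [this, ← hfφ, hh']
  let M' := (Pi.basisFun ℤ (Fin n)).toMatrix b'
  let M := b'.toMatrix (Pi.basisFun ℤ (Fin n))
  let J : Finset (Fin n) := Finset.univ.filter (fun i => (σ.symm i).isRight)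
  have hM' : ∀ i, ∑ j, ((M' j i : ℤ) : ℝ) * l j = φ (b' i) := by
    intro i
    rw [hφ]
    refine Finset.sum_congr rfl fun j _ => ?_
    simp [M', Module.Basis.toMatrix_apply]
  have hb' : ∀ i, b' i = b (σ.symm i) := fun i => by simp [b']
  refine ⟨M, M', J, ?_, ?_, ?_, ?_, ?_⟩
  · exact Module.Basis.toMatrix_mul_toMatrix_flip _ _
  · exact Module.Basis.toMatrix_mul_toMatrix_flip _ _
  · -- nonempty
    by_contra hJ
    rw [Finset.not_nonempty_iff_eq_empty] at hJ
    apply hl
    have hE : IsEmpty (Module.Free.ChooseBasisIndex ℤ (LinearMap.range φ)) := by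
      constructor
      intro i
      have : σ (Sum.inr i) ∈ J := by simp [J]
      rw [hJ] at this
      simp at this
    have hs : Subsingleton (LinearMap.range φ) := by
      constructor
      intro x y
      apply b2.repr.injective
      ext i
      exact hE.elim i
    funext j
    have h1 := congrArg Subtype.val (hs.elim (f (Pi.single j 1)) 0)
    rw [hfφ, hφ] at h1
    rw [Finset.sum_eq_single j] at h1
    · simpa using h1
    · intro i _ hij
      simp [Pi.single_eq_of_ne hij]
    · simp
  · intro i hi
    simp only
    rw [hM', hb']
    have : ¬ (σ.symm i).isRight := by simpa [J] using hi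
    rcases hx : σ.symm i with a | a
    · exact hbl a
    · rw [hx] at this; simp at this
  · intro m hm hs
    have h1 : φ (∑ i, m i • b' i) = 0 := by
      rw [map_sum, ← hs]
      refine Finset.sum_congr rfl fun i _ => ?_
      have := hM' i
      rw [map_smul, zsmul_eq_mul]
      simp only [this]
    -- express via b2
    have h2 : ∑ a, m (σ (Sum.inr a)) • b2 a = 0 := by
      apply Subtype.ext
      rw [Submodule.coe_sum]
      have h3 : φ (∑ i, m i • b' i) = ∑ a, ((m (σ (Sum.inr a)) • b2 a : LinearMap.range φ) : ℝ) := by
        rw [map_sum, ← Equiv.sum_comp σ, Fintype.sum_sum_type]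
        have h4 : ∀ a, φ (m (σ (Sum.inl a)) • b' (σ (Sum.inl a))) = 0 := by
          intro a
          rw [map_smul, hb', Equiv.symm_apply_apply, hbl, smul_zero]
        simp only [h4, Finset.sum_const_zero, zero_add]
        refine Finset.sum_congr rfl fun a _ => ?_
        rw [map_smul, hb', Equiv.symm_apply_apply, hbr]
        rfl
      rw [← h3, h1]
      rfl
    have h5 := Fintype.linearIndependent_iff.1 b2.linearIndependent (fun a => m (σ (Sum.inr a))) h2
    funext i
    by_cases hi : i ∈ J
    · have : (σ.symm i).isRight := by simpa [J] using hi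
      rcases hx : σ.symm i with a | a
      · rw [hx] at this; simp at this
      · have := h5 a
        rw [← hx, Equiv.apply_symm_apply] at this
        simpa using this
    · simpa using hm i hi

end Pool.Agent.H390.FH
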