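import Pool.Agent.H664.FH.Stm2
import Pool.Graph.R_pool_sql_team_seeded_3997aac3.Q206.EG.AlgPoly

/-!
Project FH (helper664), JOB NOEXP: there is no exponential in the function field of a hypersurface.
Purely algebraic proof (minimal homogeneous relation).
-/

set_option autoImplicit false

namespace Pool.Agent.H390.FH

open MvPolynomial

theorem deg_lt {σ : Type} (i : σ) (r : MvPolynomial σ ℂ) (hr : pderiv i r ≠ 0) :
    degreeOf i (pderiv i r) < degreeOf i r := by
  classical
  have hi : i ∈ r.vars := by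
    by_contra h
    exact hr (pderiv_eq_zero_of_notMem_vars h)
  have key : ∀ m ∈ (pderiv i r).support, m + Finsupp.single i 1 ∈ r.support := by
    intro m hm
    rw [mem_support_iff, coeff_pderiv] at hm
    rw [mem_support_iff]
    exact left_ne_zero_of_mul hm
  have hd : 0 < degreeOf i r := by
    rw [Nat.pos_iff_ne_zero]
    intro h
    rw [mem_vars_iff_mem_support] at hi
    obtain ⟨m, hm, hmi⟩ := hi
    have h1 := monomial_le_degreeOf i hm
    rw [h] at h1
    rw [Finsupp.mem_support_iff] at hmi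
    omega
  rw [degreeOf_lt_iff hd]
  intro m hm
  have h1 := monomial_le_degreeOf i (key m hm)
  simp only [Finsupp.add_apply, Finsupp.single_eq_same] at h1
  omega

theorem not_dvd_deg {σ : Type} (i : σ) (p q : MvPolynomial σ ℂ) (hq : q ≠ 0)
    (h : degreeOf i q < degreeOf i p) : ¬ p ∣ q := by
  rintro ⟨r, rfl⟩
  have hp : p ≠ 0 := left_ne_zero_of_mul hq
  have hr : r ≠ 0 := right_ne_zero_of_mul hq
  rw [degreeOf_mul_eq hp hr] at h
  omega

/-- no polynomial solutions of `(p/q)' = κ (p/q)` -/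
theorem no_log {σ : Type} (i : σ) (p q : MvPolynomial σ ℂ) (κ : ℂ) (hp : p ≠ 0) (hq : q ≠ 0)
    (hκ : κ ≠ 0) (h : q * pderiv i p - p * pderiv i q = C κ * p * q) : False := by
  have hpq : degreeOf i (C κ * p * q) = degreeOf i p + degreeOf i q := by
    have h0 : (C κ : MvPolynomial σ ℂ) ≠ 0 := by
      rw [Ne, C_eq_zero]; exact hκ
    rw [degreeOf_mul_eq (mul_ne_zero h0 hp) hq, degreeOf_mul_eq h0 hp, degreeOf_C, zero_add]
  have hne : C κ * p * q ≠ 0 := by
    have h0 : (C κ : MvPolynomial σ ℂ) ≠ 0 := by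
      rw [Ne, C_eq_zero]; exact hκ
    exact mul_ne_zero (mul_ne_zero h0 hp) hq
  have hle : degreeOf i (q * pderiv i p - p * pderiv i q) ≤
      max (degreeOf i (q * pderiv i p)) (degreeOf i (p * pderiv i q)) := by
    exact degreeOf_sub_le _ _ _
  rw [h, hpq] at hle
  by_cases h1 : pderiv i p = 0
  · by_cases h2 : pderiv i q = 0
    · apply hne
      rw [← h, h1, h2]
      ring
    · have h3 := deg_lt i q h2
      rw [h1, mul_zero, degreeOf_zero, degreeOf_mul_eq hp h2] at hle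
      omega
  · have h4 := deg_lt i p h1
    rw [degreeOf_mul_eq hq h1] at hle
    by_cases h2 : pderiv i q = 0
    · rw [h2, mul_zero, degreeOf_zero] at hle
      omega
    · have h3 := deg_lt i q h2
      rw [degreeOf_mul_eq hp h2] at hle
      omega

/-- the homogeneous form `∑ c_i a^i b^(m-i)` -/
noncomputable def Fm {n : ℕ} {s : Set (Fin n)} (a b : MvPolynomial (Fin n) ℂ)
    (c : ℕ → MvPolynomial s ℂ) (m : ℕ) : MvPolynomial (Fin n) ℂ :=
  ∑ i ∈ Finset.range (m + 1), rename Subtype.val (c i) * a ^ i * b ^ (m - i)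

theorem Fm_top {n : ℕ} {s : Set (Fin n)} (a b : MvPolynomial (Fin n) ℂ)
    (c : ℕ → MvPolynomial s ℂ) (m : ℕ) (h : c (m + 1) = 0) :
    Fm a b c (m + 1) = b * Fm a b c m := by
  rw [Fm, Finset.sum_range_succ, h, map_zero, zero_mul, zero_mul, add_zero, Fm, Finset.mul_sum]
  refine Finset.sum_congr rfl fun i hi => ?_
  rw [Finset.mem_range] at hi
  rw [show m + 1 - i = (m - i) + 1 by omega, pow_succ]
  ring

theorem Fm_bot {n : ℕ} {s : Set (Fin n)} (a b : MvPolynomial (Fin n) ℂ)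
    (c : ℕ → MvPolynomial s ℂ) (m : ℕ) (h : c 0 = 0) :
    Fm a b c (m + 1) = a * Fm a b (fun i => c (i + 1)) m := by
  rw [Fm, Finset.sum_range_succ', h, map_zero, zero_mul, zero_mul, add_zero, Fm, Finset.mul_sum]
  refine Finset.sum_congr rfl fun i hi => ?_
  rw [show m + 1 - (i + 1) = (m - i) by omega, pow_succ]
  ring

theorem Fm_lin {n : ℕ} {s : Set (Fin n)} (a b : MvPolynomial (Fin n) ℂ)
    (c c' : ℕ → MvPolynomial s ℂ) (u u' : MvPolynomial s ℂ) (m : ℕ) :
    Fm a b (fun i => u * c i - u' * c' i) m =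
      rename Subtype.val u * Fm a b c m - rename Subtype.val u' * Fm a b c' m := by
  rw [Fm, Fm, Fm, Finset.mul_sum, Finset.mul_sum, ← Finset.sum_sub_distrib]
  refine Finset.sum_congr rfl fun i hi => ?_
  rw [map_sub, map_mul, map_mul]
  ring

/-- the derivation `P_{i0} ∂_{l0} - P_{l0} ∂_{i0}` -/
noncomputable def Dv {n : ℕ} (P : MvPolynomial (Fin n) ℂ) (i0 l0 : Fin n) :
    Derivation ℂ (MvPolynomial (Fin n) ℂ) (MvPolynomial (Fin n) ℂ) :=
  pderiv i0 P • pderiv l0 - pderiv l0 P • pderiv i0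

theorem Dv_apply {n : ℕ} (P g : MvPolynomial (Fin n) ℂ) (i0 l0 : Fin n) :
    Dv P i0 l0 g = pderiv i0 P * pderiv l0 g - pderiv l0 P * pderiv i0 g := by
  simp [Dv]

theorem pderiv_rename_out {n : ℕ} {l0 : Fin n} (c : MvPolynomial ({l0}ᶜ : Set (Fin n)) ℂ) :
    pderiv l0 (rename Subtype.val c) = 0 := by
  classical
  apply pderiv_eq_zero_of_notMem_vars
  intro h
  have h1 := vars_rename (Subtype.val : ({l0}ᶜ : Set (Fin n)) → Fin n) c h
  rw [Finset.mem_image] at h1
  obtain ⟨⟨x, hx⟩, -, hxl⟩ := h1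
  exact hx hxl

theorem pderiv_rename_in {n : ℕ} {s : Set (Fin n)} (i : s) (c : MvPolynomial s ℂ) :
    pderiv (i : Fin n) (rename Subtype.val c) = rename Subtype.val (pderiv i c) := by
  classical
  induction c using MvPolynomial.induction_on with
  | C r => simp
  | add p q hp hq => simp [hp, hq]
  | mul_X p j hp =>
    rw [map_mul, rename_X, Derivation.leibniz, hp, Derivation.leibniz, map_add, smul_eq_mul,
      smul_eq_mul, smul_eq_mul, smul_eq_mul, map_mul, map_mul, rename_X]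
    congr 2
    by_cases hij : i = j
    · subst hij
      rw [pderiv_X_self, pderiv_X_self, map_one]
    · rw [pderiv_X_of_ne (fun h => hij h.symm), map_zero, pderiv_X_of_ne]
      intro h
      exact hij (Subtype.ext h).symm

theorem step {n : ℕ} (P a b : MvPolynomial (Fin n) ℂ) (i0 l0 : Fin n) (k : ℤ)
    (hP : Prime P) (hi : i0 ∈ ({l0}ᶜ : Set (Fin n))) (hl : ¬ P ∣ pderiv l0 P)
    (ha : ¬ P ∣ a) (hb : ¬ P ∣ b)
    (hE : P ∣ b * Dv P i0 l0 a - a * Dv P i0 l0 b + C (k : ℂ) * pderiv l0 P * a * b)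
    (c : ℕ → MvPolynomial ({l0}ᶜ : Set (Fin n)) ℂ) (m : ℕ) (h : P ∣ Fm a b c m) :
    P ∣ Fm a b (fun i => pderiv ⟨i0, hi⟩ (c i) + C ((i : ℂ) * k) * c i) m := by
  have hDP : Dv P i0 l0 P = 0 := by rw [Dv_apply]; ring
  have hD : P ∣ Dv P i0 l0 (Fm a b c m) := by
    obtain ⟨t, ht⟩ := h
    rw [ht, Derivation.leibniz, hDP, smul_zero, add_zero, smul_eq_mul]
    exact dvd_mul_right _ _
  have hpow : ∀ (g : MvPolynomial (Fin n) ℂ) (j : ℕ),
      g * Dv P i0 l0 (g ^ j) = C (j : ℂ) * g ^ j * Dv P i0 l0 g := by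
    intro g j
    rw [Derivation.leibniz_pow, smul_eq_mul, nsmul_eq_mul]
    rcases j with _ | j
    · simp
    · rw [Nat.add_sub_cancel, pow_succ]
      push_cast
      rw [map_add, map_one, map_natCast]
      ring
  have key : pderiv l0 P * a * b *
      Fm a b (fun i => pderiv ⟨i0, hi⟩ (c i) + C ((i : ℂ) * k) * c i) m =
      C (m : ℂ) * a * Dv P i0 l0 b * Fm a b c m +
      (b * Dv P i0 l0 a - a * Dv P i0 l0 b + C (k : ℂ) * pderiv l0 P * a * b) *
        Fm a b (fun i => C (i : ℂ) * c i) m - a * b * Dv P i0 l0 (Fm a b c m) := by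
    unfold Fm
    rw [map_sum, Finset.mul_sum, Finset.mul_sum, Finset.mul_sum, Finset.mul_sum,
      ← Finset.sum_add_distrib, ← Finset.sum_sub_distrib]
    refine Finset.sum_congr rfl fun i hir => ?_
    rw [Finset.mem_range] at hir
    obtain ⟨j, rfl⟩ : ∃ j, m = i + j := ⟨m - i, by omega⟩
    rw [Nat.add_sub_cancel_left]
    have h1 : Dv P i0 l0 (rename Subtype.val (c i)) =
        - (pderiv l0 P * rename Subtype.val (pderiv ⟨i0, hi⟩ (c i))) := by
      rw [Dv_apply, pderiv_rename_out, ← pderiv_rename_in]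
      ring
    rw [Derivation.leibniz, Derivation.leibniz, smul_eq_mul, smul_eq_mul, smul_eq_mul,
      smul_eq_mul, h1]
    have h2 := hpow a i
    have h3 := hpow b j
    have h4 : a * b * (rename Subtype.val (c i) * a ^ i * Dv P i0 l0 (b ^ j) + b ^ j *
        (rename Subtype.val (c i) * Dv P i0 l0 (a ^ i) + a ^ i *
          - (pderiv l0 P * rename Subtype.val (pderiv ⟨i0, hi⟩ (c i))))) =
        a * (rename Subtype.val (c i) * a ^ i * (C (j : ℂ) * b ^ j * Dv P i0 l0 b)) +
        b * (b ^ j * (rename Subtype.val (c i) * (C (i : ℂ) * a ^ i * Dv P i0 l0 a))) +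
        a * b * b ^ j * (a ^ i *
          - (pderiv l0 P * rename Subtype.val (pderiv ⟨i0, hi⟩ (c i)))) := by
      rw [← h2, ← h3]
      ring
    rw [h4]
    simp only [map_add, map_mul, rename_C, Nat.cast_add]
    ring
  have h5 : P ∣ pderiv l0 P * a * b *
      Fm a b (fun i => pderiv ⟨i0, hi⟩ (c i) + C ((i : ℂ) * k) * c i) m := by
    rw [key]
    exact dvd_sub (dvd_add (h.mul_left _) (hE.mul_right _)) (hD.mul_left _)
  rcases hP.dvd_or_dvd h5 with h6 | h6
  · rcases hP.dvd_or_dvd h6 with h7 | h7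
    · rcases hP.dvd_or_dvd h7 with h8 | h8
      · exact absurd h8 hl
      · exact absurd h8 ha
    · exact absurd h7 hb
  · exact h6

theorem norel {n : ℕ} (P a b : MvPolynomial (Fin n) ℂ) (i0 l0 : Fin n) (k : ℤ)
    (hP : Prime P) (hi : i0 ∈ ({l0}ᶜ : Set (Fin n))) (hl : ¬ P ∣ pderiv l0 P)
    (ha : ¬ P ∣ a) (hb : ¬ P ∣ b) (hk : k ≠ 0)
    (hc : ∀ c : MvPolynomial ({l0}ᶜ : Set (Fin n)) ℂ, c ≠ 0 → ¬ P ∣ rename Subtype.val c)
    (hE : P ∣ b * Dv P i0 l0 a - a * Dv P i0 l0 b + C (k : ℂ) * pderiv l0 P * a * b) (m : ℕ) :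
    ∀ (c : ℕ → MvPolynomial ({l0}ᶜ : Set (Fin n)) ℂ), (∃ i, i ≤ m ∧ c i ≠ 0) →
      ¬ P ∣ Fm a b c m := by
  induction m with
  | zero =>
    rintro c ⟨i, hi0, hci⟩ h
    obtain rfl : i = 0 := by omega
    apply hc _ hci
    simpa [Fm] using h
  | succ m ih =>
    rintro c ⟨i, him, hci⟩ h
    by_cases h1 : c (m + 1) = 0
    · rw [Fm_top a b c m h1] at h
      rcases hP.dvd_or_dvd h with h | h
      · exact hb h
      · refine ih c ⟨i, ?_, hci⟩ h
        have : i ≠ m + 1 := by rintro rfl; exact hci h1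
        omega
    · by_cases h0 : c 0 = 0
      · rw [Fm_bot a b c m h0] at h
        rcases hP.dvd_or_dvd h with h | h
        · exact ha h
        · exact ih _ ⟨m, le_rfl, h1⟩ h
      · set c' : ℕ → MvPolynomial ({l0}ᶜ : Set (Fin n)) ℂ :=
          fun i => pderiv ⟨i0, hi⟩ (c i) + C ((i : ℂ) * k) * c i with hc'
        have h2 : P ∣ Fm a b c' (m + 1) := step P a b i0 l0 k hP hi hl ha hb hE c (m + 1) h
        have h3 : P ∣ Fm a b (fun i => c (m + 1) * c' i - c' (m + 1) * c i) (m + 1) := by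
          rw [Fm_lin]
          exact dvd_sub (h2.mul_left _) (h.mul_left _)
        rw [Fm_top _ _ _ _ (by ring)] at h3
        rcases hP.dvd_or_dvd h3 with h3 | h3
        · exact hb h3
        · have h4 : c (m + 1) * c' 0 - c' (m + 1) * c 0 = 0 := by
            by_contra hne
            exact ih _ ⟨0, Nat.zero_le _, hne⟩ h3
          rw [hc'] at h4
          simp only [Nat.cast_zero, zero_mul, map_zero, add_zero] at h4
          refine no_log (⟨i0, hi⟩ : ({l0}ᶜ : Set (Fin n))) (c 0) (c (m + 1))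
            (((m + 1 : ℕ) : ℂ) * k) h0 h1 ?_ ?_
          · refine mul_ne_zero (Nat.cast_ne_zero.2 (Nat.succ_ne_zero m)) (Int.cast_ne_zero.2 hk)
          · linear_combination h4

theorem rel {n : ℕ} (P a b : MvPolynomial (Fin n) ℂ) (l0 : Fin n) (hP : Prime P)
    (hb : ¬ P ∣ b)
    (hc : ∀ c : MvPolynomial ({l0}ᶜ : Set (Fin n)) ℂ, c ≠ 0 → ¬ P ∣ rename Subtype.val c) :
    ∃ (m : ℕ) (c : ℕ → MvPolynomial ({l0}ᶜ : Set (Fin n)) ℂ), (∃ i, i ≤ m ∧ c i ≠ 0) ∧
      P ∣ Fm a b c m := by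
  classical
  let I : Ideal (MvPolynomial (Fin n) ℂ) := Ideal.span {P}
  have hI : I.IsPrime := (Ideal.span_singleton_prime hP.ne_zero).2 hP
  let K := FractionRing (MvPolynomial (Fin n) ℂ ⧸ I)
  let π : MvPolynomial (Fin n) ℂ →ₐ[ℂ] K :=
    (IsScalarTower.toAlgHom ℂ (MvPolynomial (Fin n) ℂ ⧸ I) K).comp (Ideal.Quotient.mkₐ ℂ I)
  have hπ : ∀ g, π g = 0 ↔ P ∣ g := by
    intro g
    change algebraMap (MvPolynomial (Fin n) ℂ ⧸ I) K (Ideal.Quotient.mk I g) = 0 ↔ _
    rw [← map_zero (algebraMap (MvPolynomial (Fin n) ℂ ⧸ I) K),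
      (IsFractionRing.injective (MvPolynomial (Fin n) ℂ ⧸ I) K).eq_iff,
      Ideal.Quotient.eq_zero_iff_mem, Ideal.mem_span_singleton]
  set x : Fin n → K := fun j => π (X j) with hx
  have hπx : ∀ g, π g = aeval x g := by
    intro g
    rw [← AlgHom.congr_fun (MvPolynomial.algHom_ext (f := aeval x) (g := π) (by
      intro i; rw [aeval_X])) g]
  let s : Set (Fin n) := {l0}ᶜ
  let ζ : s → K := fun j => x j
  have hren : ∀ c : MvPolynomial s ℂ, aeval ζ c = π (rename Subtype.val c) := by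
    intro c
    rw [hπx, aeval_rename]
    rfl
  have hind : AlgebraicIndepOn ℂ x s := by
    change AlgebraicIndependent ℂ ζ
    rw [AlgebraicIndependent, injective_iff_map_eq_zero]
    intro c hc0
    by_contra hne
    rw [hren, hπ] at hc0
    exact hc c hne hc0
  have hl0 : IsAlgebraic (Algebra.adjoin ℂ (x '' s)) (x l0) := by
    by_contra htr
    have h1 := hind.insert (i := l0) htr
    have h2 : insert l0 s = Set.univ := by
      ext j
      by_cases hj : j = l0
      · simp [hj]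
      · simp [s, hj]
    rw [h2] at h1
    have h3 : AlgebraicIndependent ℂ x := by
      have h5 := h1.comp (fun j : Fin n => (⟨j, Set.mem_univ j⟩ : (Set.univ : Set (Fin n))))
        (fun u v huv => by simpa using huv)
      exact h5
    have h4 : aeval x P = 0 := by
      rw [← hπx, hπ]
    exact hP.ne_zero ((injective_iff_map_eq_zero _).1 h3 P h4)
  have hrange : x '' s = Set.range ζ := by
    ext y
    constructor
    · rintro ⟨j, hj, rfl⟩
      exact ⟨⟨j, hj⟩, rfl⟩
    · rintro ⟨j, rfl⟩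
      exact ⟨j, j.2, rfl⟩
  rw [hrange] at hl0
  let L := IntermediateField.adjoin ℂ (Set.range ζ)
  have hl1 : IsAlgebraic L (x l0) := by
    have h1 := hl0
    obtain ⟨p, hp, hpx⟩ := h1
    refine ⟨p.map (Subalgebra.inclusion (IntermediateField.algebra_adjoin_le_adjoin ℂ
      (Set.range ζ))).toRingHom, ?_, ?_⟩
    · rw [Ne, Polynomial.map_eq_zero_iff]
      · exact hp
      · exact Subalgebra.inclusion_injective _
    · rw [Polynomial.aeval_def, Polynomial.eval₂_map] at *
      exact hpx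
  have hall : ∀ g : MvPolynomial (Fin n) ℂ, IsAlgebraic L (π g) := by
    intro g
    induction g using MvPolynomial.induction_on with
    | C r =>
      rw [hπx, aeval_C]
      exact isAlgebraic_algebraMap (algebraMap ℂ L r)
    | add p q hp hq => rw [map_add]; exact hp.add hq
    | mul_X p j hp =>
      rw [map_mul]
      refine hp.mul ?_
      by_cases hj : j = l0
      · rw [hj]; exact hl1
      · have : x j ∈ L := IntermediateField.subset_adjoin _ _ ⟨⟨j, hj⟩, rfl⟩
        exact isAlgebraic_algebraMap (⟨x j, this⟩ : L)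
  have hbπ : π b ≠ 0 := fun h => hb ((hπ b).1 h)
  have hf : IsAlgebraic L (π a / π b) := by
    rw [div_eq_mul_inv]
    exact (hall a).mul (hall b).inv
  obtain ⟨A, ⟨i, hi⟩, hA⟩ := Pool.Agent.Q206.EG.alg_poly ζ (π a / π b) hf
  refine ⟨A.natDegree, A.coeff, ⟨i, ?_, ?_⟩, ?_⟩
  · by_contra hlt
    apply hi
    rw [Polynomial.coeff_eq_zero_of_natDegree_lt (by omega), map_zero]
  · intro h0
    apply hi
    rw [h0, map_zero]
  · rw [← hπ, Fm, map_sum]
    rw [Polynomial.eval_map, Polynomial.eval₂_eq_sum_range] at hA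
    have h1 : π b ^ A.natDegree * ∑ i ∈ Finset.range (A.natDegree + 1),
        (aeval ζ : MvPolynomial s ℂ →ₐ[ℂ] K).toRingHom (A.coeff i) * (π a / π b) ^ i = 0 := by
      rw [hA, mul_zero]
    rw [← h1, Finset.mul_sum]
    refine Finset.sum_congr rfl fun i hi => ?_
    rw [Finset.mem_range] at hi
    change _ = π b ^ A.natDegree * (aeval ζ (A.coeff i) * (π a / π b) ^ i)
    rw [hren, map_mul, map_mul, map_pow, map_pow, div_pow]
    have h2 : π b ^ A.natDegree = π b ^ i * π b ^ (A.natDegree - i) := by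
      rw [← pow_add]; congr 1; omega
    rw [h2]
    have h3 : π b ^ i ≠ 0 := pow_ne_zero _ hbπ
    have h4 : ∀ u v w z t : K, z ≠ 0 → u * v * w = z * w * (u * (v / z)) := by
      intro u v w z t hz
      rw [mul_div_assoc', mul_div_assoc', eq_div_iff hz]
      ring
    exact h4 _ _ _ _ 0 h3

theorem noexp1 {n : ℕ} (P a b : MvPolynomial (Fin n) ℂ) (i0 l0 : Fin n) (k : ℤ)
    (hP : Irreducible P) (hne : l0 ≠ i0) (hl : pderiv l0 P ≠ 0)
    (ha : ¬ P ∣ a) (hb : ¬ P ∣ b) (hk : k ≠ 0) :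
    ¬ P ∣ b * (pderiv i0 P * pderiv l0 a - pderiv l0 P * pderiv i0 a) -
      a * (pderiv i0 P * pderiv l0 b - pderiv l0 P * pderiv i0 b) +
      C (k : ℂ) * pderiv l0 P * a * b := by
  intro hE
  have hPp : Prime P := hP.prime
  have hdeg := deg_lt l0 P hl
  have hl' : ¬ P ∣ pderiv l0 P := not_dvd_deg l0 _ _ hl hdeg
  have hc : ∀ c : MvPolynomial ({l0}ᶜ : Set (Fin n)) ℂ, c ≠ 0 → ¬ P ∣ rename Subtype.val c := by
    classical
    intro c hc0
    refine not_dvd_deg l0 _ _ ?_ ?_
    · intro h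
      exact hc0 (rename_injective _ Subtype.val_injective (by rw [h, map_zero]))
    · refine lt_of_le_of_lt ?_ (lt_of_le_of_lt (Nat.zero_le _) hdeg)
      rw [Nat.le_zero]
      by_contra hne0
      have h0 : l0 ∈ (rename Subtype.val c : MvPolynomial (Fin n) ℂ).vars := by
        rw [vars_def, Multiset.mem_toFinset, ← Multiset.count_pos]
        rw [degreeOf_def] at hne0
        exact Nat.pos_of_ne_zero hne0
      have h1 := vars_rename (Subtype.val : ({l0}ᶜ : Set (Fin n)) → Fin n) c h0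
      rw [Finset.mem_image] at h1
      obtain ⟨⟨x, hx⟩, -, hxl⟩ := h1
      exact hx hxl
  obtain ⟨m, c, h1, h2⟩ := rel P a b l0 hPp hb hc
  refine norel P a b i0 l0 k hPp (fun h => hne h.symm) hl' ha hb hk hc ?_ m c h1 h2
  rw [Dv_apply, Dv_apply]
  exact hE

/-- the linear change of coordinates `x_j ↦ x_j + t e_j x_{i0}` (`j ≠ i0`) -/
noncomputable def ch {n : ℕ} (i0 : Fin n) (e : Fin n → ℂ) :
    MvPolynomial (Fin n) ℂ →ₐ[ℂ] MvPolynomial (Fin n) ℂ :=
  bind₁ fun j => X j + C (if j = i0 then 0 else e j) * X i0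

theorem ch_ch {n : ℕ} (i0 : Fin n) (e e' : Fin n → ℂ) (h : ∀ j, e j + e' j = 0) :
    (ch i0 e).comp (ch i0 e') = AlgHom.id ℂ _ := by
  apply MvPolynomial.algHom_ext
  intro j
  rw [AlgHom.comp_apply, ch, ch, bind₁_X_right, map_add, map_mul, bind₁_X_right, bind₁_X_right,
    AlgHom.id_apply]
  have : bind₁ (fun j => X j + C (if j = i0 then 0 else e j) * X i0)
      (C (if j = i0 then 0 else e' j) : MvPolynomial (Fin n) ℂ) =
      C (if j = i0 then 0 else e' j) := by
    rw [bind₁_C_right]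
  rw [this]
  simp only [if_true, map_zero, zero_mul, add_zero]
  by_cases hj : j = i0
  · simp [hj]
  · simp only [hj, if_false]
    have h1 : (C (e j) : MvPolynomial (Fin n) ℂ) + C (e' j) = 0 := by
      rw [← C_add, h j, C_0]
    linear_combination X i0 * h1

noncomputable def chE {n : ℕ} (i0 : Fin n) (e : Fin n → ℂ) :
    MvPolynomial (Fin n) ℂ ≃ₐ[ℂ] MvPolynomial (Fin n) ℂ :=
  AlgEquiv.ofAlgHom (ch i0 e) (ch i0 (fun j => - e j)) (ch_ch _ _ _ (by intro j; ring))
    (ch_ch _ _ _ (by intro j; ring))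

theorem ch_l0 {n : ℕ} (i0 l0 : Fin n) (e : Fin n → ℂ) (hne : l0 ≠ i0)
    (p : MvPolynomial (Fin n) ℂ) : pderiv l0 (ch i0 e p) = ch i0 e (pderiv l0 p) := by
  induction p using MvPolynomial.induction_on with
  | C r => simp [ch]
  | add p q hp hq => simp [hp, hq]
  | mul_X p j hp =>
    rw [map_mul, Derivation.leibniz, hp, Derivation.leibniz, map_add, smul_eq_mul,
      smul_eq_mul, smul_eq_mul, smul_eq_mul, map_mul, map_mul]
    congr 2
    rw [ch, bind₁_X_right, map_add, Derivation.leibniz, pderiv_C, pderiv_X_of_ne hne.symm]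
    by_cases hj : j = l0
    · subst hj
      simp
    · rw [pderiv_X_of_ne hj]
      simp

theorem ch_i0 {n : ℕ} (i0 : Fin n) (e : Fin n → ℂ) (he : e i0 = 1)
    (p : MvPolynomial (Fin n) ℂ) :
    pderiv i0 (ch i0 e p) = ch i0 e (∑ l, C (e l) * pderiv l p) := by
  classical
  induction p using MvPolynomial.induction_on with
  | C r => simp [ch]
  | add p q hp hq =>
    rw [map_add, map_add, hp, hq, ← map_add, ← Finset.sum_add_distrib]
    congr 1
    refine Finset.sum_congr rfl fun l _ => ?_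
    rw [map_add, mul_add]
  | mul_X p j hp =>
    have h1 : pderiv i0 (ch i0 e (X j)) = C (e j) := by
      rw [ch, bind₁_X_right, map_add, Derivation.leibniz, pderiv_C, pderiv_X_self]
      by_cases hj : j = i0
      · subst hj
        simp [he]
      · rw [pderiv_X_of_ne hj]
        simp [hj]
    rw [map_mul, Derivation.leibniz, hp, h1, smul_eq_mul, smul_eq_mul, ← map_mul]
    have h2 : (C (e j) : MvPolynomial (Fin n) ℂ) = ch i0 e (C (e j)) := by
      rw [ch, bind₁_C_right]
    rw [h2, ← map_mul, ← map_add]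
    congr 1
    have h3 : ∀ l, C (e l) * pderiv l (p * X j) =
        p * (C (e l) * (if l = j then 1 else 0)) + X j * (C (e l) * pderiv l p) := by
      intro l
      rw [Derivation.leibniz, smul_eq_mul, smul_eq_mul]
      by_cases hl : l = j
      · subst hl
        rw [pderiv_X_self, if_pos rfl]
        ring
      · rw [pderiv_X_of_ne (Ne.symm hl), if_neg hl]
        ring
    simp_rw [h3]
    rw [Finset.sum_add_distrib, ← Finset.mul_sum, ← Finset.mul_sum]
    congr 2
    simp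

theorem noexp : Pool.Agent.H664.FH.S_noexp := by
  intro n P a b i0 l0 e k hP he hne hl _ ha hb hk hE
  set ec : Fin n → ℂ := fun l => (e l : ℂ) with hec
  have he' : ec i0 = 1 := by rw [hec]; simp [he]
  have hφ : ∀ g, chE i0 ec g = ch i0 ec g := fun g => rfl
  have hdvd : ∀ g, ch i0 ec P ∣ ch i0 ec g ↔ P ∣ g := by
    intro g
    rw [← hφ, ← hφ]
    exact map_dvd_iff (chE i0 ec)
  have hirr : Irreducible (ch i0 ec P) := by
    rw [← hφ]
    exact (MulEquiv.irreducible_iff (chE i0 ec)).2 hP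
  refine noexp1 (ch i0 ec P) (ch i0 ec a) (ch i0 ec b) i0 l0 k hirr hne ?_ ?_ ?_ hk ?_
  · rw [ch_l0 _ _ _ hne, ← hφ]
    intro h
    exact hl ((map_eq_zero_iff _ (chE i0 ec).injective).1 h)
  · rwa [hdvd]
  · rwa [hdvd]
  · have h1 := (hdvd _).2 hE
    rw [ch_l0 _ _ _ hne, ch_l0 _ _ _ hne, ch_l0 _ _ _ hne, ch_i0 _ _ he', ch_i0 _ _ he',
      ch_i0 _ _ he']
    have h2 : ch i0 ec (C (k : ℂ)) = C (k : ℂ) := by
      rw [ch, bind₁_C_right]
    rw [map_add, map_sub, map_mul, map_mul, map_mul, map_mul, map_mul, map_sub, map_sub, map_mul,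
      map_mul, map_mul, map_mul, h2] at h1
    exact h1

end Pool.Agent.H390.FH
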